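import Pool.Agent.Helper31.MHS.Goals
import Pool.Agent.Helper11.MH.MCM

/-!
# Machines with several heads and descriptions of their tapes: the whole computation
-/

set_option autoImplicit false

namespace Pool.Agent.Helper8.MHS

open Pool.Agent.Helper65.LinSpace Pool.Agent.Helper78.Mpc Pool.Agent.Helper28.Ram Finset Filter
open Pool.Agent.Helper20.MH (MultiHead Prm Sys Conf ParM FnsM GoodM InBox cz)
open Pool.Agent.Helper28.OHS (Box)
open Pool.Agent.Helper81.Sus2 (Decomp CodE)
open Pool.Agent.Helper31.SusD (itr itr_sound itr_complete)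
open Pool.Agent.Helper31.MHS

theorem lt_of_lt01 {a b : ℕ} (h : lt01 a b ≠ 0) : a < b := by
  by_contra hn
  apply h
  rw [lt01, if_neg hn]

theorem inBox_of_box {D b : ℕ} {p : Fin D → ℤ} (h : Box b p) : InBox (b + 1) p := by
  intro k
  obtain ⟨h1, h2⟩ := h k
  rw [Nat.add_sub_cancel]
  constructor
  · linarith
  · rw [pow_succ]
    linarith

/-- If the first factor of `rch` is not `0` then the first state is not too long. -/
theorem start_len {D K : ℕ} {A : MultiHead D K} {eA eN eW c0 : ℕ} {w y : List Bool} {P : WP}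
    (hP : ParM A eA eN eW c0 w y P.m) (h : lt01 0 (P.m.wq (P.cs 1)) ≠ 0) :
    A.start.length ≤ P.m.S := by
  have h1 := lt_of_lt01 h
  have h2 : P.m.wq (P.cs 1) = capN P.m.S (num A.start) := by
    unfold WP.cs
    rw [eq01, if_pos rfl, ifz_ne one_ne_zero, Pool.Agent.Helper11.MH.wq_mk P.m (capN_lt _ _),
      hP.h_st]
  rw [h2] at h1
  exact Pool.Agent.Helper11.Ram.capN_num_le h1.ne'

theorem start_ne {D K : ℕ} {A : MultiHead D K} {eA eN eW c0 : ℕ} {w y : List Bool} {P : WP}
    (hP : ParM A eA eN eW c0 w y P.m) (h : A.start.length ≤ P.m.S) :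
    lt01 0 (P.m.wq (P.cs 1)) ≠ 0 := by
  have h2 : P.m.wq (P.cs 1) = num A.start := by
    unfold WP.cs
    rw [eq01, if_pos rfl, ifz_ne one_ne_zero, Pool.Agent.Helper11.MH.wq_mk P.m (capN_lt _ _),
      hP.h_st, capN_num h]
  rw [h2, lt01, if_pos (num_pos _)]
  exact one_ne_zero

theorem chk_ne {P : WP} {F : ℕ → ℕ → ℕ → ℕ} {c τ d : ℕ} (h : P.chk F c τ d ≠ 0) :
    0 < τ ∧ 1 < d := by
  unfold WP.chk at h
  exact ⟨lt_of_lt01 (left_ne_zero_of_mul h),
    lt_of_lt01 (left_ne_zero_of_mul (right_ne_zero_of_mul h))⟩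

theorem rch (hC : CHK_stmt) (hD : DSC_stmt) : RCH_stmt where
  snd := by
    intro D K A eA eN eW c0 w y P F z hK hP hF hc hFO hN hr
    unfold WP.rch at hr
    have h0 := left_ne_zero_of_mul hr
    obtain ⟨j, _, hj⟩ := exists_ne_zero_of_sum_ne_zero (right_ne_zero_of_mul hr)
    obtain ⟨τ, hτ, hj⟩ := exists_ne_zero_of_sum_ne_zero hj
    have hτ' : τ ≤ P.N := by
      rw [mem_range] at hτ
      omega
    rcases itr_sound (chk := P.chk F) (N := P.N + 1) (Z := P.nz z)
      (R := fun c t => RepW P c (A.conf w y t))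
      (hD.start A eA eN eW c0 w y P hP (start_len hP h0))
      (fun c t τ' d hR hτ'' hh => (hC.snd A eA eN eW c0 w y P F hK hP hF hc hFO c τ' d t
        (by omega) hR hh).1) j with h3 | ⟨t, h3⟩
    · rw [h3] at hj
      unfold WP.ac at hj
      exact absurd (lt_of_lt01 (left_ne_zero_of_mul hj)) (lt_irrefl 0)
    · exact hC.acs A eA eN eW c0 w y P F hK hP hF hc hFO _ τ t (by omega) h3 hj
  cmp := by
    intro D K A E eA eN eW c0 w y P F z hK hP hF hCE hc hFO hN t b r₀ hκ hacc hfit hbox hdesc hr₀
    classical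
    have hex : ∃ t, A.AcceptsAt w y t := ⟨t, hacc⟩
    obtain ⟨r, hr, hrt, hmin⟩ : ∃ r, A.AcceptsAt w y r ∧ r ≤ t ∧
        ∀ u < r, ¬A.AcceptsAt w y u :=
      ⟨Nat.find hex, Nat.find_spec hex, Nat.find_min' hex hacc, fun u hu => Nat.find_min hex hu⟩
    have hfit' : ∀ u ≤ r, A.Fits w y u P.m.S := fun u hu x hx => hfit x (by omega)
    have hbox' : ∀ u ≤ r, ∀ i, InBox P.m.κ ((A.conf w y u).h i) := by
      intro u hu i
      rw [hκ]
      exact inBox_of_box (hbox u (by omega) i)
    have hst : A.start.length ≤ P.m.S := (hfit 0 (Nat.zero_le _)).1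
    have hZ : 1 < P.nz z := by
      unfold WP.nz
      omega
    have key := itr_complete (chk := P.chk F) (ac := P.ac F) (N := P.N + 1) (Z := P.nz z) (r := r)
      (R := fun c t' => c ≠ 0 ∧ (t' ≤ r → RepW P c (A.conf w y t'))) hZ
      ⟨one_ne_zero, fun _ => hD.start A eA eN eW c0 w y P hP hst⟩ (fun c t' h => h.1)
      (fun c t' τ d hR hτ hh => by
        obtain ⟨h1, h2⟩ := chk_ne hh
        refine ⟨⟨by omega, fun ht => ?_⟩, h1⟩
        exact (hC.snd A eA eN eW c0 w y P F hK hP hF hc hFO c τ d t' (by omega)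
          (hR.2 (by omega)) hh).1)
      (fun c t' hR ht => by
        have hR' := hR.2 ht
        rcases Nat.lt_or_ge (t' + P.N) r with h1 | h1
        · right
          have h2 : ∃ x, t' < x ∧ x < t' + P.N + 1 ∧ Short A E w y b P.Z z x := by
            by_contra hcon
            push Not at hcon
            have h3 := hdesc t' (t' + P.N + 1) (by omega) (by omega) (fun x hx1 hx2 =>
              hcon x hx1 hx2)
            omega
          obtain ⟨x, hx1, hx2, hx⟩ := h2
          obtain ⟨d, hd1, hd2, hd3⟩ := hD.short A E eA eN eW c0 w y P hP hCE b x z hκ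
            (hfit x (by omega)).1 (hbox x (by omega)) hx
          refine ⟨x - t', by omega, d, hd2, by omega, ?_⟩
          have e1 : t' + (x - t') = x := by omega
          refine hC.cmp A eA eN eW c0 w y P F hK hP hF hc hFO c (x - t') d t' (by omega) (by omega)
            hR' (by omega) hd1 ?_ ?_ ?_ ?_
          · rw [e1]
            exact hd3
          · rw [e1]
            exact hfit' x (by omega)
          · rw [e1]
            exact fun u hu => hbox' u (by omega)
          · rw [e1]
            exact fun u _ hu => hmin u (by omega)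
        · left
          refine ⟨r - t', by omega, ?_⟩
          have e1 : t' + (r - t') = r := by omega
          refine hC.acc A eA eN eW c0 w y P F hK hP hF hc hFO c (r - t') t' (by omega) (by omega)
            hR' ?_ ?_ ?_ ?_
          · rw [e1]
            exact hfit' r le_rfl
          · rw [e1]
            exact hbox'
          · rw [e1]
            exact fun u _ hu => hmin u hu
          · rw [e1]
            exact hr)
    obtain ⟨j, hj, hj0, τ, hτ, hne⟩ := key
    unfold WP.rch
    refine mul_ne_zero (start_ne hP hst) ?_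
    intro hsum
    rw [sum_eq_zero_iff] at hsum
    have h1 := hsum j (mem_range.2 hj)
    rw [sum_eq_zero_iff] at h1
    exact hne (h1 τ (mem_range.2 hτ))

end Pool.Agent.Helper8.MHS
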